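import Pool.Agent.H25.TRI.Targets

/-!
# Row C_TRI of the board reg_modules: the trilinear estimate
-/

set_option autoImplicit false

namespace Pool.Agent.H4.TRI

open MeasureTheory Metric Set Filter Topology Pool.Agent.H87.SN Pool.Agent.H25.TRI
open scoped ContDiff RealInnerProductSpace ENNReal

noncomputable section

/-- square integrable functions with compact support are integrable -/
lemma int_of_l2 {n : ℕ} {f : E n → ℝ} (hf : MemLp f 2) (hc : HasCompactSupport f) :
    Integrable f := by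
  rw [← integrableOn_iff_integrable_of_support_subset (subset_tsupport f)]
  haveI : IsFiniteMeasure (volume.restrict (tsupport f)) :=
    ⟨by rw [Measure.restrict_apply_univ]; exact hc.isCompact.measure_lt_top⟩
  have h1 : MemLp f 1 (volume.restrict (tsupport f)) :=
    (hf.restrict (tsupport f)).mono_exponent one_le_two
  exact memLp_one_iff_integrable.1 h1

/-- bounded functions with compact support are integrable -/
lemma int_of_bdd {n : ℕ} {f : E n → ℝ} {K : ℝ} (hm : AEStronglyMeasurable f)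
    (hb : ∀ᵐ x, |f x| ≤ K) (hc : HasCompactSupport f) : Integrable f := by
  rw [← integrableOn_iff_integrable_of_support_subset (subset_tsupport f)]
  refine Measure.integrableOn_of_bounded (M := K) hc.isCompact.measure_lt_top.ne hm ?_
  exact ae_restrict_of_ae (hb.mono fun x hx => by rwa [Real.norm_eq_abs])

/-- the mollification of a bounded function -/
lemma moll_bdd {n : ℕ} {m f : E n → ℝ} {K : ℝ} (hm : Cc m) (h0 : ∀ x, 0 ≤ m x)
    (h1 : ∫ x, m x = 1) (hb : ∀ᵐ x, |f x| ≤ K) (x : E n) : |∫ z, m z * f (x - z)| ≤ K := by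
  have hb' : ∀ᵐ z, |f (x - z)| ≤ K :=
    (quasiMeasurePreserving_sub_left (volume : Measure (E n)) x).ae hb
  have h2 : ‖∫ z, m z * f (x - z)‖ ≤ ∫ z, m z * K := by
    refine norm_integral_le_of_norm_le (hm.integrable.mul_const K) ?_
    filter_upwards [hb'] with z hz
    rw [norm_mul, Real.norm_eq_abs, Real.norm_eq_abs, abs_of_nonneg (h0 z)]
    exact mul_le_mul_of_nonneg_left hz (h0 z)
  rw [integral_mul_const, h1, one_mul, Real.norm_eq_abs] at h2
  exact h2

lemma mul_int {n : ℕ} {b f g : E n → ℝ} {K : ℝ} (hbm : AEStronglyMeasurable b)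
    (hb : ∀ᵐ x, |b x| ≤ K) (hf : MemLp f 2) (hg : MemLp g 2) :
    Integrable (fun x => b x * (f x * g x)) := by
  have h1 : Integrable (fun x => f x * g x) := hf.integrable_mul hg
  exact h1.bdd_mul hbm (hb.mono fun x hx => by rwa [Real.norm_eq_abs])

/-- the core, with compact supports -/
lemma core (hMOS : T_MOS) (hML2 : T_ML2) (hMOW : T_MOW) (hMOD : T_MOD) (hMOM : T_MOM)
    (hLIM : T_LIM) (n : ℕ) (m : ℕ → E n → ℝ) (hm : Moll m)
    (hae : ∀ f : E n → ℝ, Integrable f →
      ∀ᵐ x, Tendsto (fun k => ∫ z, m k z * f (x - z)) atTop (𝓝 (f x))) (C : ℝ) (_hC : 0 ≤ C)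
    (hT : ∀ (b g : E n → ℝ) (G : Fin n → E n → ℝ) (M : ℝ),
      Cc b → Cc g → (∀ i, Cc (G i)) → (∀ x, ∑ i : Fin n, pd i (G i) x = 0) → 0 ≤ M →
      (∀ i, Mor (pd i b) M) →
      |∫ x, b x * ∑ i : Fin n, G i x * pd i g x| ≤
        C * M * (∑ i, Real.sqrt (∫ x, G i x ^ 2)) * (∑ i, Real.sqrt (∫ x, pd i g x ^ 2)))
    (b g : E n → ℝ) (B G D : Fin n → E n → ℝ) (M K : ℝ) (hM : 0 ≤ M)
    (hbm : AEStronglyMeasurable b) (hb : ∀ᵐ x, |b x| ≤ K) (hbc : HasCompactSupport b)
    (hB : ∀ i, Integrable (B i)) (hBW : WG b B) (hBM : ∀ i, Mor (B i) M)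
    (hG : ∀ i, MemLp (G i) 2) (hGc : ∀ i, HasCompactSupport (G i))
    (hdiv : ∀ φ : E n → ℝ, Cc φ → ∑ i : Fin n, ∫ x, G i x * pd i φ x = 0)
    (hg : MemLp g 2) (hgc : HasCompactSupport g) (hD : ∀ i, MemLp (D i) 2)
    (hDc : ∀ i, HasCompactSupport (D i)) (hDW : WG g D) :
    |∫ x, b x * ∑ i : Fin n, G i x * D i x| ≤
      C * M * (∑ i, Real.sqrt (∫ x, G i x ^ 2)) * (∑ i, Real.sqrt (∫ x, D i x ^ 2)) := by
  have hbi : Integrable b := int_of_bdd hbm hb hbc
  have hGi : ∀ i, Integrable (G i) := fun i => int_of_l2 (hG i) (hGc i)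
  have hgi : Integrable g := int_of_l2 hg hgc
  have hDi : ∀ i, Integrable (D i) := fun i => int_of_l2 (hD i) (hDc i)
  -- the mollified functions
  set bk : ℕ → E n → ℝ := fun k x => ∫ z, m k z * b (x - z) with hbk
  set gk : ℕ → E n → ℝ := fun k x => ∫ z, m k z * g (x - z) with hgk
  set Gk : Fin n → ℕ → E n → ℝ := fun i k x => ∫ z, m k z * G i (x - z) with hGk
  set Dk : Fin n → ℕ → E n → ℝ := fun i k x => ∫ z, m k z * D i (x - z) with hDk
  have cb : ∀ k, Cc (bk k) := fun k => hMOS n (m k) b (hm.cc k) hbi hbc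
  have cg : ∀ k, Cc (gk k) := fun k => hMOS n (m k) g (hm.cc k) hgi hgc
  have cG : ∀ i k, Cc (Gk i k) := fun i k => hMOS n (m k) (G i) (hm.cc k) (hGi i) (hGc i)
  have cD : ∀ i k, Cc (Dk i k) := fun i k => hMOS n (m k) (D i) (hm.cc k) (hDi i) (hDc i)
  have lp : ∀ {f : E n → ℝ}, Cc f → MemLp f 2 := fun {f} hf =>
    hf.continuous.memLp_of_hasCompactSupport hf.2
  have pdb : ∀ k i, pd i (bk k) = fun x => ∫ z, m k z * B i (x - z) := fun k i =>
    funext fun x => hMOW n (m k) b B (hm.cc k) hbi hbc hB hBW i x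
  have pdg : ∀ k i, pd i (gk k) = Dk i k := fun k i =>
    funext fun x => hMOW n (m k) g D (hm.cc k) hgi hgc hDi hDW i x
  have bkK : ∀ k x, |bk k x| ≤ K := fun k x =>
    moll_bdd (hm.cc k) (hm.nonneg k) (hm.one k) hb x
  -- the inequality for the mollified functions
  have hk : ∀ k, |∑ i : Fin n, ∫ x, bk k x * (Gk i k x * Dk i k x)| ≤
      C * M * (∑ i, Real.sqrt (∫ x, Gk i k x ^ 2)) * (∑ i, Real.sqrt (∫ x, Dk i k x ^ 2)) := by
    intro k
    have h1 := hT (bk k) (gk k) (fun i => Gk i k) M (cb k) (cg k) (fun i => cG i k)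
      (hMOD n (m k) G (hm.cc k) hGi hGc hdiv) hM (fun i => by
        rw [pdb k i]
        exact hMOM n (m k) (B i) M (hm.cc k) (hm.nonneg k) (hm.one k)
          (hB i).aestronglyMeasurable hM (hBM i))
    simp only [pdg] at h1
    have h2 : ∫ x, bk k x * ∑ i : Fin n, Gk i k x * Dk i k x =
        ∑ i : Fin n, ∫ x, bk k x * (Gk i k x * Dk i k x) := by
      rw [← integral_finsetSum]
      · refine integral_congr_ae (Eventually.of_forall fun x => ?_)
        simp only [Finset.mul_sum]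
      · intro i _
        exact mul_int (cb k).continuous.aestronglyMeasurable
          (Eventually.of_forall fun x => bkK k x) (lp (cG i k)) (lp (cD i k))
    rw [h2] at h1
    exact h1
  have hbt : ∀ᵐ x, Tendsto (fun k => bk k x) atTop (𝓝 (b x)) := hae b hbi
  have hlim1 : ∀ i : Fin n, Tendsto (fun k => ∫ x, bk k x * (Gk i k x * Dk i k x)) atTop
      (𝓝 (∫ x, b x * (G i x * D i x))) ∧
      Tendsto (fun k => Real.sqrt (∫ x, Gk i k x ^ 2)) atTop (𝓝 (Real.sqrt (∫ x, G i x ^ 2))) :=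
    fun i => hLIM n bk (Gk i) (Dk i) b (G i) (D i) K
      (fun k => (cb k).continuous.aestronglyMeasurable)
      (fun k => Eventually.of_forall fun x => bkK k x) hbm hb hbt
      (fun k => lp (cG i k)) (fun k => lp (cD i k)) (hG i) (hD i)
      (hML2 n m hm (G i) (hG i)) (hML2 n m hm (D i) (hD i))
  have hlim2 : ∀ i : Fin n,
      Tendsto (fun k => Real.sqrt (∫ x, Dk i k x ^ 2)) atTop (𝓝 (Real.sqrt (∫ x, D i x ^ 2))) :=
    fun i => (hLIM n bk (Dk i) (Dk i) b (D i) (D i) K
      (fun k => (cb k).continuous.aestronglyMeasurable)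
      (fun k => Eventually.of_forall fun x => bkK k x) hbm hb hbt
      (fun k => lp (cD i k)) (fun k => lp (cD i k)) (hD i) (hD i)
      (hML2 n m hm (D i) (hD i)) (hML2 n m hm (D i) (hD i))).2
  have hfin : ∫ x, b x * ∑ i : Fin n, G i x * D i x =
      ∑ i : Fin n, ∫ x, b x * (G i x * D i x) := by
    rw [← integral_finsetSum]
    · refine integral_congr_ae (Eventually.of_forall fun x => ?_)
      simp only [Finset.mul_sum]
    · intro i _
      exact mul_int hbm hb (hG i) (hD i)
  rw [hfin]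
  have t1 : Tendsto (fun k => |∑ i : Fin n, ∫ x, bk k x * (Gk i k x * Dk i k x)|) atTop
      (𝓝 |∑ i : Fin n, ∫ x, b x * (G i x * D i x)|) :=
    (tendsto_finsetSum _ fun i _ => (hlim1 i).1).abs
  have t2 : Tendsto (fun k => C * M * (∑ i, Real.sqrt (∫ x, Gk i k x ^ 2)) *
      (∑ i, Real.sqrt (∫ x, Dk i k x ^ 2))) atTop
      (𝓝 (C * M * (∑ i, Real.sqrt (∫ x, G i x ^ 2)) * (∑ i, Real.sqrt (∫ x, D i x ^ 2)))) :=
    ((tendsto_finsetSum _ fun i _ => (hlim1 i).2).const_mul (C * M)).mul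
      (tendsto_finsetSum _ fun i _ => hlim2 i)
  exact le_of_tendsto_of_tendsto' t1 t2 hk

theorem pf_TRI (hTRS : T_TRS) (hMOL : T_MOL) (hMOS : T_MOS) (hML2 : T_ML2) (hMOW : T_MOW)
    (hMOD : T_MOD) (hMOM : T_MOM) (hLIM : T_LIM) : T_TRI := by
  intro n hn
  obtain ⟨C, hC, hT⟩ := hTRS n hn
  obtain ⟨m, hm, hae⟩ := hMOL n
  refine ⟨C, hC, ?_⟩
  intro b g B G D M K hM hbm hb hbc hB hBW hBM hG hGc hdiv hg hgc hD hDW
  -- the weak derivatives vanish off the support
  have hz : ∀ i, ∀ᵐ x, x ∈ (tsupport g)ᶜ → D i x = 0 := by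
    intro i
    refine (isClosed_tsupport g).isOpen_compl.ae_eq_zero_of_integral_contDiff_smul_eq_zero ?_ ?_
    · exact ((hD i).locallyIntegrable one_le_two).locallyIntegrableOn _
    · intro φ hφ hφc hφs
      have h1 := hDW φ ⟨hφ, hφc⟩ i
      have h2 : ∫ x, g x * pd i φ x = 0 := by
        refine integral_eq_zero_of_ae (Eventually.of_forall fun x => ?_)
        by_cases hx : x ∈ tsupport g
        · have h3 : x ∉ tsupport φ := fun h => hφs h hx
          have h4 : φ =ᶠ[𝓝 x] 0 := notMem_tsupport_iff_eventuallyEq.1 h3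
          have h5 : fderiv ℝ φ x = 0 := by
            rw [h4.fderiv_eq]
            exact fderiv_const_apply 0
          simp [pd, h5]
        · simp [image_eq_zero_of_notMem_tsupport hx]
      rw [h2] at h1
      have h6 : ∫ x, D i x * φ x = 0 := by linarith
      rw [← h6]
      refine integral_congr_ae (Eventually.of_forall fun x => ?_)
      simp only [smul_eq_mul]
      ring
  have hDD : ∀ i, (tsupport g).indicator (D i) =ᵐ[volume] D i := by
    intro i
    filter_upwards [hz i] with x hx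
    by_cases h : x ∈ tsupport g
    · rw [indicator_of_mem h]
    · rw [indicator_of_notMem h, hx h]
  have hmeas : MeasurableSet (tsupport g) := (isClosed_tsupport g).measurableSet
  have h1 := core hMOS hML2 hMOW hMOD hMOM hLIM n m hm hae C hC hT b g B G
    (fun i => (tsupport g).indicator (D i)) M K hM hbm hb hbc hB hBW hBM hG hGc hdiv hg hgc
    (fun i => (hD i).indicator hmeas)
    (fun i => by
      refine HasCompactSupport.intro hgc.isCompact fun x hx => ?_
      exact indicator_of_notMem hx _)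
    (fun φ hφ i => by
      rw [hDW φ hφ i]
      congr 1
      refine integral_congr_ae ?_
      filter_upwards [hDD i] with x hx
      rw [hx])
  have e1 : ∫ x, b x * ∑ i : Fin n, G i x * (tsupport g).indicator (D i) x =
      ∫ x, b x * ∑ i : Fin n, G i x * D i x := by
    refine integral_congr_ae ?_
    filter_upwards [ae_all_iff.2 hDD] with x hx
    congr 1
    exact Finset.sum_congr rfl fun i _ => by rw [hx i]
  have e2 : ∀ i, ∫ x, (tsupport g).indicator (D i) x ^ 2 = ∫ x, D i x ^ 2 := by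
    intro i
    refine integral_congr_ae ?_
    filter_upwards [hDD i] with x hx
    rw [hx]
  rw [e1] at h1
  simp only [e2] at h1
  exact h1

end

end Pool.Agent.H4.TRI
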